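import Pool.Agent.Helper93.KS.St

/-!
# Project KS: module EXA (dyadic summation)
-/

set_option autoImplicit false

namespace Pool.Agent.Helper61.KS

open Finset Filter Topology Pool.Agent.Helper93.KS
open Pool.Agent.Helper15.AB (ee Kl StDB StMT)
open Pool.Agent.Helper9.TW (gm Qs fm StMER StC9)
open Pool.Agent.Helper18.TR (StLevel)
open Pool.Agent.Helper93.KP (gk vk tk rn gn TK qk StC8P StVLP StRTS StWEI)

private theorem ev (r : ℝ) (hr : 0 < r) :
    ∀ᶠ N : ℕ in atTop, 2 * Real.log N + 2 ≤ (N : ℝ) ^ r := by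
  have h1 : ∀ᶠ x : ℝ in atTop, Real.log x ≤ (1 / 4) * x ^ r := by
    have h := (isLittleO_log_rpow_atTop hr).bound (c := 1 / 4) (by norm_num)
    filter_upwards [h, eventually_ge_atTop 1] with x hx h1
    rw [Real.norm_eq_abs, Real.norm_eq_abs, abs_of_nonneg (Real.log_nonneg h1),
      abs_of_nonneg (Real.rpow_nonneg (by linarith) r)] at hx
    exact hx
  have h2 : ∀ᶠ x : ℝ in atTop, (4 : ℝ) ≤ x ^ r :=
    (tendsto_rpow_atTop hr).eventually_ge_atTop 4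
  have h3 : ∀ᶠ x : ℝ in atTop, 2 * Real.log x + 2 ≤ x ^ r := by
    filter_upwards [h1, h2] with x a b
    linarith
  exact tendsto_natCast_atTop_atTop.eventually h3

private theorem log_le (N : ℕ) (hN : 1 ≤ N) : (Nat.log 2 N : ℝ) ≤ 2 * Real.log N := by
  have h4 : (2 : ℕ) ^ (Nat.log 2 N) ≤ N := Nat.pow_log_le_self 2 (by omega)
  have h4' : (2 : ℝ) ^ (Nat.log 2 N) ≤ N := by exact_mod_cast h4
  have h := Real.log_le_log (by positivity) h4'
  rw [Real.log_pow] at h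
  have h1 : (1 / 2 : ℝ) ≤ Real.log 2 := by linarith [Real.log_two_gt_d9]
  nlinarith [Nat.cast_nonneg (α := ℝ) (Nat.log 2 N)]

theorem hEXA (h2 : StEX2) : StEXA := by
  classical
  intro u j0 η hj0 hju hη
  obtain ⟨N₁, hN₁⟩ := eventually_atTop.1 (h2 u j0 η hj0 hju hη)
  obtain ⟨N₂, hN₂⟩ := eventually_atTop.1 (ev (3 / 1000) (by norm_num))
  refine ⟨max N₂ ((2 * N₁ + 3) ^ 2), ?_⟩
  intro N hN
  have hNa : N₂ ≤ N := le_trans (le_max_left _ _) hN
  have hNb : (2 * N₁ + 3) ^ 2 ≤ N := le_trans (le_max_right _ _) hN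
  have hN1 : 1 ≤ N := le_trans (Nat.one_le_pow _ _ (by omega)) hNb
  have hN1r : (1 : ℝ) ≤ N := by exact_mod_cast hN1
  set R := (range (Nat.log 2 N + 1)).filter (fun k => N₁ ≤ 2 ^ k) with hR
  let F : ℕ → Finset ℕ := fun k =>
    (Ioc (2 ^ k) (2 * 2 ^ k)).filter (fun n => ¬ GD 1 19 78 kf1 u j0 η n)
  have hF : ∀ k ∈ R, ((F k).card : ℝ) ≤ (N : ℝ) ^ (595 / 1000 : ℝ) := by
    intro k hk
    rw [hR, Finset.mem_filter, Finset.mem_range] at hk
    have h1 := hN₁ (2 ^ k) hk.2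
    have h3 : (2 : ℕ) ^ k ≤ N :=
      (Nat.pow_le_pow_right (by norm_num) (by omega : k ≤ Nat.log 2 N)).trans
        (Nat.pow_log_le_self 2 (by omega))
    have h3' : (((2 : ℕ) ^ k : ℕ) : ℝ) ≤ N := by exact_mod_cast h3
    refine le_trans ?_ (Real.rpow_le_rpow (by positivity) h3' (by norm_num))
    convert h1 using 3
  refine ⟨(Icc 1 N).filter (fun n : ℕ => ¬ ((N : ℝ) ^ (1 / 2 : ℝ) ≤ (n : ℝ))) ∪ R.biUnion F, ?_, ?_⟩
  · have hc2 := Finset.card_union_le ((Icc 1 N).filter (fun n : ℕ => ¬ ((N : ℝ) ^ (1 / 2 : ℝ) ≤ (n : ℝ))))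
      (R.biUnion F)
    have hc2' : ((((Icc 1 N).filter (fun n : ℕ => ¬ ((N : ℝ) ^ (1 / 2 : ℝ) ≤ (n : ℝ))) ∪ R.biUnion F).card : ℕ) : ℝ)
        ≤ (((Icc 1 N).filter (fun n : ℕ => ¬ ((N : ℝ) ^ (1 / 2 : ℝ) ≤ (n : ℝ)))).card : ℝ) +
          ((R.biUnion F).card : ℝ) := by exact_mod_cast hc2
    have hc3 : ((R.biUnion F).card : ℝ) ≤ (2 * Real.log N + 1) * (N : ℝ) ^ (595 / 1000 : ℝ) := by
      have h1 : (R.biUnion F).card ≤ ∑ s ∈ R, (F s).card := Finset.card_biUnion_le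
      have h2 : ((∑ s ∈ R, (F s).card : ℕ) : ℝ) ≤ ∑ _s ∈ R, (N : ℝ) ^ (595 / 1000 : ℝ) := by
        push_cast
        exact Finset.sum_le_sum hF
      have h3 : (R.card : ℝ) ≤ 2 * Real.log N + 1 := by
        have : R.card ≤ Nat.log 2 N + 1 := by
          rw [hR]
          exact (Finset.card_filter_le _ _).trans (by rw [Finset.card_range])
        have h' : (R.card : ℝ) ≤ (Nat.log 2 N : ℝ) + 1 := by exact_mod_cast this
        linarith [log_le N hN1]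
      rw [Finset.sum_const, nsmul_eq_mul] at h2
      calc ((R.biUnion F).card : ℝ) ≤ ((∑ s ∈ R, (F s).card : ℕ) : ℝ) := by exact_mod_cast h1
        _ ≤ _ := h2
        _ ≤ _ := mul_le_mul_of_nonneg_right h3 (by positivity)
    have hc4 : (((Icc 1 N).filter (fun n : ℕ => ¬ ((N : ℝ) ^ (1 / 2 : ℝ) ≤ (n : ℝ)))).card : ℝ) ≤
        (N : ℝ) ^ (595 / 1000 : ℝ) := by
      have hsub : (Icc 1 N).filter (fun n : ℕ => ¬ ((N : ℝ) ^ (1 / 2 : ℝ) ≤ (n : ℝ))) ⊆
          Icc 1 (Nat.sqrt N) := by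
        intro n hn
        rw [Finset.mem_filter, Finset.mem_Icc] at hn
        obtain ⟨⟨hn1, hnN⟩, hlt⟩ := hn
        rw [Finset.mem_Icc]
        refine ⟨hn1, Nat.le_sqrt'.2 ?_⟩
        push Not at hlt
        rw [← Real.sqrt_eq_rpow] at hlt
        have h5 : (n : ℝ) ^ 2 < N := (Real.lt_sqrt (by positivity)).1 hlt
        have h6 : n ^ 2 < N := by exact_mod_cast h5
        exact h6.le
      have h0 := Finset.card_le_card hsub
      rw [Nat.card_Icc, Nat.add_sub_cancel] at h0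
      have h0' : (((Icc 1 N).filter (fun n : ℕ => ¬ ((N : ℝ) ^ (1 / 2 : ℝ) ≤ (n : ℝ)))).card : ℝ) ≤
        (Nat.sqrt N : ℝ) := by exact_mod_cast h0
      have h1 : (Nat.sqrt N : ℝ) ≤ √(N : ℝ) := Real.nat_sqrt_le_real_sqrt
      rw [Real.sqrt_eq_rpow] at h1
      exact h0'.trans (h1.trans (Real.rpow_le_rpow_of_exponent_le hN1r (by norm_num)))
    have hfin : (2 * Real.log N + 2) * (N : ℝ) ^ (595 / 1000 : ℝ) ≤ (N : ℝ) ^ (598 / 1000 : ℝ) := by
      have h1 := hN₂ N hNa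
      calc (2 * Real.log N + 2) * (N : ℝ) ^ (595 / 1000 : ℝ) ≤
            (N : ℝ) ^ (3 / 1000 : ℝ) * (N : ℝ) ^ (595 / 1000 : ℝ) :=
            mul_le_mul_of_nonneg_right h1 (by positivity)
        _ = (N : ℝ) ^ (598 / 1000 : ℝ) := by
            rw [← Real.rpow_add (by linarith)]
            norm_num
    refine hc2'.trans ((add_le_add hc4 hc3).trans (le_trans (le_of_eq (by ring)) hfin))
  · intro n hn hnE
    rw [Finset.mem_union, not_or, Finset.mem_filter, Finset.mem_biUnion] at hnE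
    obtain ⟨ha, hb⟩ := hnE
    have ha' : (N : ℝ) ^ (1 / 2 : ℝ) ≤ n := by
      by_contra hcon
      exact ha ⟨hn, hcon⟩
    refine ⟨ha', ?_⟩
    rw [Finset.mem_Icc] at hn
    have hsq : 2 * N₁ + 3 ≤ n := by
      have h1 : ((2 * N₁ + 3 : ℕ) : ℝ) ≤ √(N : ℝ) := by
        apply Real.le_sqrt_of_sq_le
        exact_mod_cast hNb
      rw [Real.sqrt_eq_rpow] at h1
      exact_mod_cast h1.trans ha'
    by_contra hcon
    apply hb
    have hn0 : n - 1 ≠ 0 := by omega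
    have h1 : 2 ^ Nat.log 2 (n - 1) ≤ n - 1 := Nat.pow_log_le_self 2 hn0
    have h2 : n - 1 < 2 ^ (Nat.log 2 (n - 1) + 1) := Nat.lt_pow_succ_log_self (by norm_num) _
    rw [pow_succ] at h2
    refine ⟨Nat.log 2 (n - 1), ?_, ?_⟩
    · rw [hR, Finset.mem_filter, Finset.mem_range]
      refine ⟨Nat.lt_succ_of_le (Nat.log_mono_right (by omega)), ?_⟩
      omega
    · change n ∈ (Ioc (2 ^ Nat.log 2 (n - 1)) (2 * 2 ^ Nat.log 2 (n - 1))).filter
        (fun n => ¬ GD 1 19 78 kf1 u j0 η n)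
      rw [Finset.mem_filter, Finset.mem_Ioc]
      refine ⟨⟨by omega, by omega⟩, hcon⟩

end Pool.Agent.Helper61.KS
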